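import Pool.Agent.H20.MG.L4B

/-!
# MG module L4A: stress from a wrench
-/

set_option autoImplicit false
set_option linter.unusedSectionVars false

noncomputable section

open Classical Module
open scoped Matrix

namespace Pool.Agent.H20.MG

open Pool.Agent.H52.MG

variable {V : Type} [Fintype V]

lemma cross_solve (d r : Vec) (hd : d ≠ 0) (h : d ⬝ᵥ r = 0) : ∃ f : Vec, d ⨯₃ f = r := by
  have hdd : d ⬝ᵥ d ≠ 0 := fun h0 => hd (dotProduct_self_eq_zero.mp h0)
  refine ⟨(1 / (d ⬝ᵥ d)) • (r ⨯₃ d), ?_⟩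
  have h1 : d ⨯₃ (r ⨯₃ d) = (d ⬝ᵥ d) • r := by
    rw [dot3] at h
    rw [dot3]
    apply vec_ext <;> simp only [cross_eq, Pi.smul_apply, smul_eq_mul, Matrix.cons_val]
    · linear_combination (-d 0) * h
    · linear_combination (-d 1) * h
    · linear_combination (-d 2) * h
  rw [map_smul, h1, smul_smul, one_div, inv_mul_cancel₀ hdd, one_smul]

/-- two forces with a given total wrench -/
lemma wr (W : Scr) (a b : Vec) (hab : a ≠ b) (h : kl W (lin a b) = 0) :
    ∃ f g : Vec, (∀ S : Scr, f ⬝ᵥ ev S a + g ⬝ᵥ ev S b = kl W S) ∧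
      W.1 ⬝ᵥ W.2 = f ⬝ᵥ (g ⨯₃ (a - b)) := by
  obtain ⟨f, hf⟩ := cross_solve (a - b) (W.2 - b ⨯₃ W.1) (sub_ne_zero.2 hab) (by
    rw [← neg_eq_zero, ← h]
    simp only [kl, lin, dot3, cross_eq, Pi.sub_apply, Matrix.cons_val]
    ring)
  have h1 : a ⨯₃ f + b ⨯₃ (W.1 - f) = W.2 := by
    have h2 : a ⨯₃ f + b ⨯₃ (W.1 - f) = (a - b) ⨯₃ f + b ⨯₃ W.1 := by
      apply vec_ext <;> simp only [cross_eq, Pi.add_apply, Pi.sub_apply, Matrix.cons_val] <;> ring
    rw [h2, hf]
    abel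
  refine ⟨f, W.1 - f, ?_, ?_⟩
  · intro S
    rw [kl, ← h1]
    simp only [ev, dot3, cross_eq, Pi.add_apply, Pi.sub_apply, Matrix.cons_val]
    ring
  · rw [← h1]
    simp only [dot3, cross_eq, Pi.add_apply, Pi.sub_apply, Matrix.cons_val]
    ring

/-- the load `f` at the atom `a` -/
def ld (a : V) (f : Vec) : V → Vec := fun v => if v = a then f else 0

lemma sum_ld (a : V) (f : Vec) (m : V → Vec) : ∑ v, ld a f v ⬝ᵥ m v = f ⬝ᵥ m a := by
  rw [Finset.sum_eq_single a]
  · simp [ld]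
  · intro v _ hv
    simp [ld, hv]
  · intro h
    exact absurd (Finset.mem_univ _) h

/-- the complete graph on `X` -/
def clqG (X : Set V) : SimpleGraph V where
  Adj u w := u ≠ w ∧ u ∈ X ∧ w ∈ X
  symm := ⟨fun _ _ h => ⟨h.1.symm, h.2.2, h.2.1⟩⟩
  loopless := ⟨fun _ h => h.1 rfl⟩

/-- a load with four forces at atoms of `X` and total wrench zero is resolved -/
lemma res_clq (hRES : T_RES) (hCLQ : T_CLQ) {p : V → Vec} (hp : Gen p) (X : Set V)
    (a b e d : V) (f g h k : Vec) (ha : a ∈ X) (hb : b ∈ X) (he : e ∈ X) (hd : d ∈ X)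
    (hw : ∀ S : Scr, f ⬝ᵥ ev S (p a) + g ⬝ᵥ ev S (p b) =
      h ⬝ᵥ ev S (p e) + k ⬝ᵥ ev S (p d)) :
    ∃ ω : V → V → ℝ, (∀ u w, ω u w = ω w u) ∧ (∀ u w, ¬ (clqG X).Adj u w → ω u w = 0) ∧
      ∀ u, ∑ w, ω u w • (p u - p w) = ld a f u + ld b g u - ld e h u - ld d k u := by
  apply hRES V (clqG X) p (fun u => ld a f u + ld b g u - ld e h u - ld d k u)
  intro m hm
  obtain ⟨S, hS⟩ := hCLQ V p hp X m (by
    intro u hu w hw
    by_cases huw : u = w
    · rw [huw, sub_self, zero_dotProduct]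
    · exact hm u w ⟨huw, hu, hw⟩)
  simp only [sub_dotProduct, add_dotProduct, Finset.sum_sub_distrib, Finset.sum_add_distrib,
    sum_ld]
  rw [hS a ha, hS b hb, hS e he, hS d hd]
  linarith [hw S]

lemma chain_body' {G : SimpleGraph V} {c : V → V} {s x x' y y' t : V}
    (h : Chain G c s x x' y y' t) (hxx : x ≠ x') {v : V} (hv : x' ∈ Bd G c v) :
    c v = c x ∨ c v = c y := by
  rcases hv with hv | ⟨w, hw1, hw2⟩
  · left
    exact hv.symm.trans h.cx
  · by_cases hwx : c w = c x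
    · left
      exact hw2.symm.trans hwx
    · rcases h.oX x' w h.cx hwx hw1 with ⟨e, _⟩ | ⟨_, e⟩
      · exact absurd e.symm hxx
      · right
        rw [← hw2, e, h.cy]

/-- the union of the complete graphs on the bodies of the other classes -/
def restG (G : SimpleGraph V) (c : V → V) (x y : V) : SimpleGraph V where
  Adj u w := u ≠ w ∧ ∃ v, c v ≠ c x ∧ c v ≠ c y ∧ u ∈ Bd G c v ∧ w ∈ Bd G c v
  symm := ⟨fun _ _ h => ⟨h.1.symm, h.2.choose, h.2.choose_spec.1, h.2.choose_spec.2.1,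
    h.2.choose_spec.2.2.2, h.2.choose_spec.2.2.1⟩⟩
  loopless := ⟨fun _ h => h.1 rfl⟩

/-- infinitesimal motions of the rest come from screw motions -/
lemma rest_motion (hCLQ : T_CLQ) {p : V → Vec} (hp : Gen p) (G : SimpleGraph V) (c : V → V)
    (x y : V) (m : V → Vec) (hm : m ∈ infMot (restG G c x y) p) :
    ∃ S ∈ Mot (GRc G c x y) c p, ∀ v, c v ≠ c x → c v ≠ c y → ∀ u ∈ Bd G c v,
      m u = ev (S v) (p u) := by
  have h1 : ∀ l : V, ∃ S : Scr, ∀ v, c v = l → c v ≠ c x → c v ≠ c y → ∀ u ∈ Bd G c v,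
      m u = ev S (p u) := by
    intro l
    by_cases h : ∃ v, c v = l ∧ c v ≠ c x ∧ c v ≠ c y
    · obtain ⟨v, hv, hvx, hvy⟩ := h
      obtain ⟨S, hS⟩ := hCLQ V p hp (Bd G c v) m (by
        intro u hu w hw
        by_cases huw : u = w
        · rw [huw, sub_self, zero_dotProduct]
        · exact hm u w ⟨huw, v, hvx, hvy, hu, hw⟩)
      refine ⟨S, fun v' hv' _ _ u hu => hS u ?_⟩
      rwa [Bd_congr (hv'.trans hv.symm)] at hu
    · refine ⟨0, fun v hv hvx hvy => ?_⟩
      exact absurd ⟨v, hv, hvx, hvy⟩ h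
  choose Sl hSl using h1
  refine ⟨fun v => Sl (c v), ?_, fun v hvx hvy u hu => hSl (c v) v rfl hvx hvy u hu⟩
  rw [mem_Mot]
  refine ⟨fun u w huw => by simp only [huw], fun u w huw => ?_⟩
  obtain ⟨hadj, hu, hw⟩ := huw
  simp only [Set.mem_ofPred_eq, not_or] at hu hw
  rw [← hSl (c u) u rfl hu.1 hu.2 u (mem_Bd_self G c u),
    ← hSl (c w) w rfl hw.1 hw.2 u (mem_Bd_of_adj hadj)]

theorem L4A (hRES : T_RES) (hCLQ : T_CLQ) (hGP : T_GP) : T_L4A := by
  intro V _ G c p s x x' y y' t W hgen hch hxx hyy hst hU hxs hyt hxy' hW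
  obtain ⟨mx1, my1, mx2, my2⟩ := chain_mem hch
  obtain ⟨hinj, -, -⟩ := hGP V p hgen
  have nxy : x' ≠ y' := by
    intro e
    have := hch.cx
    rw [e, hch.cy] at this
    exact hch.xy this.symm
  have nxs : x ≠ s := fun e => hch.sx (by rw [← e])
  have nyt : y ≠ t := fun e => hch.ty (by rw [← e])
  have nx's : x' ≠ s := fun e => hch.sx (by rw [← e, hch.cx])
  have ny's : y' ≠ s := fun e => hch.sy (by rw [← e, hch.cy])
  have ny'x : y' ≠ x := fun e => hch.xy (by rw [← e, hch.cy])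
  obtain ⟨f, g, hfg, hWd⟩ := wr W (p x') (p y') (hinj _ _ nxy) hxy'
  obtain ⟨h, h', hh, -⟩ := wr W (p x) (p s) (hinj _ _ nxs) hxs
  obtain ⟨l, l', hl, -⟩ := wr W (p y) (p t) (hinj _ _ nyt) hyt
  have mx : x ∈ Bd G c x := mem_Bd_self G c x
  have ms : s ∈ Bd G c x := mem_Bd_of_adj hch.e1.symm
  have my : y ∈ Bd G c y := mem_Bd_self G c y
  have mt : t ∈ Bd G c y := mem_Bd_of_adj hch.e3.symm
  obtain ⟨ωX, sX, zX, eX⟩ := res_clq hRES hCLQ hgen (Bd G c x) x' y' x s f g h h' mx1 my1 mx ms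
    (fun S => by rw [hfg, hh])
  obtain ⟨ωY, sY, zY, eY⟩ := res_clq hRES hCLQ hgen (Bd G c y) y t x' y' l l' f g my mt mx2 my2
    (fun S => by rw [hfg, hl])
  obtain ⟨ωR, sR, zR, eR⟩ := hRES V (restG G c x y) p
    (fun u => ld x h u + ld s h' u - ld y l u - ld t l' u) (by
      intro m hm
      obtain ⟨S, hS, hS2⟩ := rest_motion hCLQ hgen G c x y m hm
      simp only [sub_dotProduct, add_dotProduct, Finset.sum_sub_distrib, Finset.sum_add_distrib,
        sum_ld]
      rw [hS2 s hch.sx hch.sy x (mem_Bd_of_adj hch.e1), hS2 s hch.sx hch.sy s (mem_Bd_self G c s),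
        hS2 t hch.tx hch.ty y (mem_Bd_of_adj hch.e3), hS2 t hch.tx hch.ty t (mem_Bd_self G c t)]
      have h1 := hU (S s - S t) (mem_Urel.2 ⟨S, hS, rfl⟩)
      rw [kl_sub'] at h1
      linarith [hh (S s), hl (S t)])
  let ω : V → V → ℝ := fun u w => ωX u w + ωY u w + ωR u w
  have hω : IsStress (HP G c) ω p := by
    refine ⟨fun u w => ?_, fun u w huw => ?_, fun u => ?_⟩
    · show ωX u w + ωY u w + ωR u w = ωX w u + ωY w u + ωR w u
      rw [sX, sY, sR]
    · show ωX u w + ωY u w + ωR u w = 0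
      rw [zX u w (fun k => huw ⟨k.1, x, k.2.1, k.2.2⟩),
        zY u w (fun k => huw ⟨k.1, y, k.2.1, k.2.2⟩),
        zR u w (fun k => huw ⟨k.1, by
          obtain ⟨v, _, _, h3, h4⟩ := k.2
          exact ⟨v, h3, h4⟩⟩)]
      simp
    · show ∑ w, (ωX u w + ωY u w + ωR u w) • (p u - p w) = 0
      simp only [add_smul, Finset.sum_add_distrib]
      rw [eX, eY, eR]
      abel
  refine ⟨ω, hω, ?_⟩
  -- the forces
  have hfrc : ∀ a, a ∈ Bd G c x → a ∈ Bd G c y → (∀ v, a ∈ Bd G c v → c v = c x ∨ c v = c y) →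
      frc ω p (Bd G c x) x' a y' = - (ld x' f a + ld y' g a - ld x h a - ld s h' a) -
        ωX a x' • (p x' - p a) - ωX a y' • (p y' - p a) := by
    intro a ha1 ha2 ha3
    have h1 : frc ω p (Bd G c x) x' a y' = ∑ z, if z ≠ x' ∧ z ≠ y' then ωX a z • (p z - p a)
        else 0 := by
      rw [frc]
      refine Finset.sum_congr rfl (fun z _ => ?_)
      by_cases hz : z ≠ x' ∧ z ≠ y'
      · by_cases hzX : z ∈ Bd G c x
        · rw [if_pos ⟨hzX, hz.1, hz.2⟩, if_pos hz]
          have h2 : ωY a z = 0 := zY a z (fun k => by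
            rcases chain_inter hch hst hzX k.2.2 with e | e
            · exact hz.1 e
            · exact hz.2 e)
          have h3 : ωR a z = 0 := zR a z (fun k => by
            obtain ⟨v, hv1, hv2, hv3, _⟩ := k.2
            rcases ha3 v hv3 with e | e
            · exact hv1 e
            · exact hv2 e)
          show (ωX a z + ωY a z + ωR a z) • (p z - p a) = _
          rw [h2, h3, add_zero, add_zero]
        · rw [if_neg (fun k => hzX k.1), if_pos hz]
          rw [zX a z (fun k => hzX k.2.2), zero_smul]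
      · rw [if_neg (fun k => hz k.2), if_neg hz]
    have h2 : ∑ z, ωX a z • (p z - p a) = (∑ z, if z ≠ x' ∧ z ≠ y' then ωX a z • (p z - p a)
        else 0) + ωX a x' • (p x' - p a) + ωX a y' • (p y' - p a) := by
      have h3 : ωX a x' • (p x' - p a) = ∑ z, if z = x' then ωX a z • (p z - p a) else 0 := by
        simp
      have h4 : ωX a y' • (p y' - p a) = ∑ z, if z = y' then ωX a z • (p z - p a) else 0 := by
        simp
      rw [h3, h4, ← Finset.sum_add_distrib, ← Finset.sum_add_distrib]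
      refine Finset.sum_congr rfl (fun z _ => ?_)
      by_cases e1 : z = x'
      · subst e1
        simp [nxy]
      · by_cases e2 : z = y'
        · subst e2
          simp [e1]
        · simp [e1, e2]
    have h3 : ∑ z, ωX a z • (p z - p a) = - (ld x' f a + ld y' g a - ld x h a - ld s h' a) := by
      rw [← eX a, ← Finset.sum_neg_distrib]
      exact Finset.sum_congr rfl (fun z _ => by rw [← smul_neg, neg_sub])
    rw [h1, ← h3, h2]
    abel
  have hx := hfrc x' mx1 mx2 (fun v hv => chain_body' hch hxx hv)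
  have hy := hfrc y' my1 my2 (fun v hv => (chain_body' hch.rev hyy hv).symm)
  have e1 : frc ω p (Bd G c x) x' x' y' = - f - ωX x' y' • (p y' - p x') := by
    rw [hx]
    simp only [ld, if_true, if_neg nxy, if_neg hxx.symm, if_neg nx's, sub_self, smul_zero]
    simp
  have e2 : frc ω p (Bd G c x) x' y' y' = - g + ωX x' y' • (p y' - p x') := by
    rw [hy]
    simp only [ld, if_true, if_neg nxy.symm, if_neg ny'x, if_neg ny's, sub_self, smul_zero]
    rw [sX y' x', ← neg_sub (p y') (p x'), smul_neg]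
    simp
  have e3 : frc ω p (Bd G c x) x' x' y' ⬝ᵥ (frc ω p (Bd G c x) x' y' y' ⨯₃ (p y' - p x')) =
      - (f ⬝ᵥ (g ⨯₃ (p x' - p y'))) := by
    rw [e1, e2]
    simp only [dot3, cross_eq, Pi.add_apply, Pi.sub_apply, Pi.neg_apply, Pi.smul_apply,
      smul_eq_mul, Matrix.cons_val]
    ring
  rw [e3, ← hWd]
  exact neg_ne_zero.2 hW

end Pool.Agent.H20.MG
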