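import Pool.Agent.H52.MG.Basic
import Pool.Agent.H52.MG.Targets

/-!
# MG module L4B: congruence from the stress
-/

set_option autoImplicit false
set_option linter.unusedSectionVars false

noncomputable section

open Classical Module
open scoped Matrix

namespace Pool.Agent.H20.MG

open Pool.Agent.H52.MG

variable {V : Type} [Fintype V]

/-- `x'` is in both bodies of a chain, and similarly `y'`. -/
lemma chain_mem {G : SimpleGraph V} {c : V → V} {s x x' y y' t : V}
    (h : Chain G c s x x' y y' t) :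
    x' ∈ Bd G c x ∧ y' ∈ Bd G c x ∧ x' ∈ Bd G c y ∧ y' ∈ Bd G c y :=
  ⟨Or.inl h.cx, Or.inr ⟨x', h.e2.symm, h.cx⟩, Or.inr ⟨y', h.e2, h.cy⟩, Or.inl h.cy⟩

/-- the intersection of the two bodies of a chain -/
lemma chain_inter {G : SimpleGraph V} {c : V → V} {s x x' y y' t : V}
    (h : Chain G c s x x' y y' t) (hst : s ≠ t) {z : V} (h1 : z ∈ Bd G c x)
    (h2 : z ∈ Bd G c y) : z = x' ∨ z = y' := by
  rcases h1 with h1 | ⟨w, hw1, hw2⟩
  · rcases h2 with h2 | ⟨w', hw1', hw2'⟩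
    · exact absurd (h1.symm.trans h2) h.xy
    · rcases h.oX z w' h1 (by rw [hw2']; exact h.xy.symm) hw1' with ⟨_, e⟩ | ⟨e, _⟩
      · rw [e] at hw2'
        exact absurd hw2' h.sy
      · exact Or.inl e
  · rcases h2 with h2 | ⟨w', hw1', hw2'⟩
    · rcases h.oY z w h2 (by rw [hw2]; exact h.xy) hw1 with ⟨_, e⟩ | ⟨e, _⟩
      · rw [e] at hw2
        exact absurd hw2 h.tx
      · exact Or.inr e
    · by_cases hzx : c z = c x
      · rcases h.oX z w' hzx (by rw [hw2']; exact h.xy.symm) hw1' with ⟨_, e⟩ | ⟨e, _⟩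
        · rw [e] at hw2'
          exact absurd hw2' h.sy
        · exact Or.inl e
      · by_cases hzy : c z = c y
        · rcases h.oY z w hzy (by rw [hw2]; exact h.xy) hw1 with ⟨_, e⟩ | ⟨e, _⟩
          · rw [e] at hw2
            exact absurd hw2 h.tx
          · exact Or.inr e
        · rcases h.oX w z hw2 hzx hw1.symm with ⟨_, e⟩ | ⟨_, e⟩
          · rcases h.oY w' z hw2' hzy hw1'.symm with ⟨_, e'⟩ | ⟨_, e'⟩
            · exact absurd (e.symm.trans e') hst
            · exact Or.inl e'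
          · exact Or.inr e

/-- bodies containing `x'` -/
lemma chain_body {G : SimpleGraph V} {c : V → V} {s x x' y y' t : V}
    (h : Chain G c s x x' y y' t) (hxx : x ≠ x') {v : V} (hv : x' ∈ Bd G c v) :
    Bd G c v = Bd G c x ∨ Bd G c v = Bd G c y := by
  rcases hv with hv | ⟨w, hw1, hw2⟩
  · left
    exact Bd_congr (hv.symm.trans h.cx)
  · by_cases hwx : c w = c x
    · left
      exact Bd_congr (hw2.symm.trans hwx)
    · rcases h.oX x' w h.cx hwx hw1 with ⟨e, _⟩ | ⟨_, e⟩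
      · exact absurd e.symm hxx
      · right
        exact Bd_congr (by rw [← hw2, e, h.cy])

lemma chain_nbr {G : SimpleGraph V} {c : V → V} {s x x' y y' t : V}
    (h : Chain G c s x x' y y' t) (hxx : x ≠ x') {w : V} (hw : (HP G c).Adj x' w) :
    w ∈ Bd G c x ∨ w ∈ Bd G c y := by
  obtain ⟨_, v, hv1, hv2⟩ := hw
  rcases chain_body h hxx hv1 with e | e
  · left
    rwa [← e]
  · right
    rwa [← e]

/-- splitting the forces at an atom `a` whose neighbours are in `X ∪ Y`,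
`X ∩ Y ⊆ {x', y'} ⊆ X ∪ Y` -/
lemma split (ω : V → V → ℝ) (r : V → Vec) (X Y : Set V) (x' y' a : V) (hxy : x' ≠ y')
    (hXY : ∀ z, z ∈ X → z ∈ Y → z = x' ∨ z = y')
    (hnb : ∀ z, z ∉ X → z ∉ Y → ω a z = 0) (hx' : x' ∈ X) (hy' : y' ∈ X) :
    ∑ w, ω a w • (r w - r a) = frc ω r X x' a y' + frc ω r Y x' a y' +
      ω a x' • (r x' - r a) + ω a y' • (r y' - r a) := by
  have h1 : ω a x' • (r x' - r a) = ∑ w, if w = x' then ω a w • (r w - r a) else 0 := by
    simp
  have h2 : ω a y' • (r y' - r a) = ∑ w, if w = y' then ω a w • (r w - r a) else 0 := by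
    simp
  rw [h1, h2, frc, frc, ← Finset.sum_add_distrib, ← Finset.sum_add_distrib,
    ← Finset.sum_add_distrib]
  refine Finset.sum_congr rfl (fun w _ => ?_)
  by_cases e1 : w = x'
  · subst e1
    simp [hxy]
  · by_cases e2 : w = y'
    · subst e2
      simp [e1]
    · by_cases e3 : w ∈ X
      · by_cases e4 : w ∈ Y
        · rcases hXY w e3 e4 with e | e
          · exact absurd e e1
          · exact absurd e e2
        · simp [e1, e2, e3, e4]
      · by_cases e4 : w ∈ Y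
        · simp [e1, e2, e3, e4]
        · simp [e1, e2, e3, e4, hnb w e3 e4]

/-- forces under an affine map -/
lemma frc_aff (ω : V → V → ℝ) (p q : V → Vec) (X : Set V) (x' a y' : V)
    (L : Matrix (Fin 3) (Fin 3) ℝ) (t : Vec) (h : ∀ z ∈ X, q z = L *ᵥ p z + t) (ha : a ∈ X) :
    frc ω q X x' a y' = L *ᵥ frc ω p X x' a y' := by
  have h0 : ∀ v : Vec, L *ᵥ v = Matrix.mulVecLin L v := fun v => rfl
  rw [h0, frc, frc, map_sum]
  refine Finset.sum_congr rfl (fun z _ => ?_)
  by_cases hz : z ∈ X ∧ z ≠ x' ∧ z ≠ y'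
  · rw [if_pos hz, if_pos hz, map_smul, map_sub, h z hz.1, h a ha, ← h0, ← h0]
    congr 1
    abel
  · rw [if_neg hz, if_neg hz, map_zero]

lemma triple_det (f g d : Vec) :
    (Matrix.of ![f, g, d]).det = f ⬝ᵥ (g ⨯₃ d) := by
  rw [Matrix.det_fin_three, dot3, cross_eq]
  simp only [Matrix.of_apply, Matrix.cons_val]
  ring

lemma mat_eq_of_three (L L' : Matrix (Fin 3) (Fin 3) ℝ) (f g d : Vec)
    (h : f ⬝ᵥ (g ⨯₃ d) ≠ 0) (hf : L *ᵥ f = L' *ᵥ f) (hg : L *ᵥ g = L' *ᵥ g)
    (hd : L *ᵥ d = L' *ᵥ d) : L = L' := by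
  have hdet : IsUnit (Matrix.of ![f, g, d]).det := by
    rw [triple_det]
    exact isUnit_iff_ne_zero.2 h
  have h1 : Matrix.of ![f, g, d] * (L - L')ᵀ = 0 := by
    ext i j
    have h2 : ∀ v : Vec, L *ᵥ v = L' *ᵥ v → ∑ k, v k * (L - L')ᵀ k j = 0 := by
      intro v hv
      have h3 : ((L - L') *ᵥ v) j = 0 := by
        rw [Matrix.sub_mulVec, hv, sub_self]
        rfl
      rw [Matrix.mulVec, dotProduct] at h3
      rw [← h3]
      exact Finset.sum_congr rfl (fun k _ => by rw [Matrix.transpose_apply, mul_comm])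
    rw [Matrix.mul_apply]
    fin_cases i
    · exact h2 f hf
    · exact h2 g hg
    · exact h2 d hd
  have h2 : (L - L')ᵀ = 0 := by
    have h3 := congrArg (fun M => (Matrix.of ![f, g, d])⁻¹ * M) h1
    simp only [mul_zero] at h3
    rwa [← mul_assoc, Matrix.nonsing_inv_mul _ hdet, one_mul] at h3
  have h3 : L - L' = 0 := by
    rw [← Matrix.transpose_transpose (L - L'), h2, Matrix.transpose_zero]
  exact sub_eq_zero.1 h3

lemma dsq_orth (L : Matrix (Fin 3) (Fin 3) ℝ) (t a b : Vec) (hL : Orth L) :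
    dsq (L *ᵥ a + t) (L *ᵥ b + t) = dsq a b := by
  have h1 : L *ᵥ a + t - (L *ᵥ b + t) = L *ᵥ (a - b) := by
    rw [Matrix.mulVec_sub]
    abel
  rw [dsq, h1, Matrix.dotProduct_mulVec, Matrix.vecMul_mulVec, hL, Matrix.vecMul_one, dsq]

theorem L4B (hRANK : T_RANK) (hISO : T_ISO) : T_L4B := by
  intro V _ G c p q s x x' y y' t ω hgen hE hch hxx hyy hst hω htri
  obtain ⟨mx1, my1, mx2, my2⟩ := chain_mem hch
  have hq : IsStress (HP G c) ω q := (hRANK V (HP G c) p q hgen hE).1 ω hω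
  obtain ⟨L, τ, hL, hL1⟩ := hISO V (Bd G c x) p q (Cgr_Bd hE x)
  obtain ⟨L', τ', hL', hL1'⟩ := hISO V (Bd G c y) p q (Cgr_Bd hE y)
  have hxy' : x' ≠ y' := by
    intro e
    have := hch.cx
    rw [e, hch.cy] at this
    exact hch.xy this.symm
  -- neighbours
  have hnx : ∀ z, z ∉ Bd G c x → z ∉ Bd G c y → ω x' z = 0 := by
    intro z h1 h2
    apply hω.2.1
    intro h
    rcases chain_nbr hch hxx h with h | h
    · exact h1 h
    · exact h2 h
  have hny : ∀ z, z ∉ Bd G c x → z ∉ Bd G c y → ω y' z = 0 := by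
    intro z h1 h2
    apply hω.2.1
    intro h
    rcases chain_nbr hch.rev hyy h with h | h
    · exact h2 h
    · exact h1 h
  have hXY : ∀ z, z ∈ Bd G c x → z ∈ Bd G c y → z = x' ∨ z = y' :=
    fun z h1 h2 => chain_inter hch hst h1 h2
  have heq : ∀ (r : V → Vec), IsStress (HP G c) ω r → ∀ a, ∑ w, ω a w • (r w - r a) = 0 := by
    intro r hr a
    have h1 := hr.2.2 a
    have h2 : ∑ w, ω a w • (r w - r a) = - ∑ w, ω a w • (r a - r w) := by
      rw [← Finset.sum_neg_distrib]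
      exact Finset.sum_congr rfl (fun w _ => by rw [← smul_neg, neg_sub])
    rw [h2, h1, neg_zero]
  have hd : L *ᵥ (p y' - p x') = L' *ᵥ (p y' - p x') := by
    have h1 : q y' - q x' = L *ᵥ (p y' - p x') := by
      rw [hL1 _ my1, hL1 _ mx1, Matrix.mulVec_sub]
      abel
    have h2 : q y' - q x' = L' *ᵥ (p y' - p x') := by
      rw [hL1' _ my2, hL1' _ mx2, Matrix.mulVec_sub]
      abel
    rw [← h1, h2]
  -- the same force is mapped in the same way
  have key : ∀ a, a ∈ Bd G c x → a ∈ Bd G c y →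
      (∀ z, z ∉ Bd G c x → z ∉ Bd G c y → ω a z = 0) →
      L *ᵥ frc ω p (Bd G c x) x' a y' = L' *ᵥ frc ω p (Bd G c x) x' a y' := by
    intro a ha1 ha2 hna
    have e1 := heq p hω a
    have e2 := heq q hq a
    rw [split ω p (Bd G c x) (Bd G c y) x' y' a hxy' hXY hna mx1 my1] at e1
    rw [split ω q (Bd G c x) (Bd G c y) x' y' a hxy' hXY hna mx1 my1,
      frc_aff ω p q (Bd G c x) x' a y' L τ hL1 ha1,
      frc_aff ω p q (Bd G c y) x' a y' L' τ' hL1' ha2] at e2
    have e3 : q x' - q a = L' *ᵥ (p x' - p a) := by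
      rw [hL1' _ mx2, hL1' _ ha2, Matrix.mulVec_sub]
      abel
    have e4 : q y' - q a = L' *ᵥ (p y' - p a) := by
      rw [hL1' _ my2, hL1' _ ha2, Matrix.mulVec_sub]
      abel
    rw [e3, e4] at e2
    have e5 := congrArg (fun v => L' *ᵥ v) e1
    simp only [Matrix.mulVec_add, Matrix.mulVec_smul, Matrix.mulVec_zero] at e5
    have e6 := e2.trans e5.symm
    have e7 : L *ᵥ frc ω p (Bd G c x) x' a y' + (L' *ᵥ frc ω p (Bd G c y) x' a y' +
        ω a x' • L' *ᵥ (p x' - p a) + ω a y' • L' *ᵥ (p y' - p a)) =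
        L' *ᵥ frc ω p (Bd G c x) x' a y' + (L' *ᵥ frc ω p (Bd G c y) x' a y' +
        ω a x' • L' *ᵥ (p x' - p a) + ω a y' • L' *ᵥ (p y' - p a)) := by
      simpa only [add_assoc] using e6
    exact add_right_cancel e7
  have hLL : L = L' := mat_eq_of_three L L' _ _ _ htri (key x' mx1 mx2 hnx)
    (key y' my1 my2 hny) hd
  have hττ : τ = τ' := by
    have h1 := hL1 _ mx1
    have h2 := hL1' _ mx2
    rw [h1, ← hLL] at h2
    exact add_left_cancel h2
  have hall : ∀ z, z ∈ Bd G c x ∪ Bd G c y → q z = L *ᵥ p z + τ := by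
    rintro z (hz | hz)
    · exact hL1 z hz
    · rw [hL1' z hz, hLL, hττ]
  intro u hu w hw
  rw [hall u hu, hall w hw, dsq_orth L τ _ _ hL]

end Pool.Agent.H20.MG
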